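import Mathlib

/-!
# Small totally real fields in which given primes split completely
-/

set_option autoImplicit false

namespace Pool.Agent.Helper78K9.DT

open NumberField

variable {QA : Type} [Field QA] [CharZero QA]

/-- the prime number `l` splits completely in `K`: the decomposition groups of all the primes above `l`
fix `K` -/
def SplitsCompletely (l : ℕ) (K : IntermediateField ℚ QA) : Prop :=
  ∀ Q : Ideal (𝓞 QA), Q.IsMaximal → (l : 𝓞 QA) ∈ Q →
    ∀ γ : QA ≃ₐ[ℚ] QA, (∀ x ∈ Q, γ • x ∈ Q) → γ ∈ K.fixingSubgroup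

/-- `K` is a totally real abelian field with the Galois group `ℤ/p` or `(ℤ/p)²` -/
def IsSmall (p : ℕ) (K : IntermediateField ℚ QA) : Prop :=
  IsAbelianGalois ℚ K ∧ IsTotallyReal K ∧
    (Module.finrank ℚ K = p ∨ Module.finrank ℚ K = p ^ 2) ∧ ∀ g : K ≃ₐ[ℚ] K, g ^ p = 1

end Pool.Agent.Helper78K9.DT
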