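import Pool.Agent.Helper78K9.DT.Def
import Pool.Agent.Helper78K9.DS.Gal
import Pool.Agent.Helper78K9.SP.Small

/-!
# Deligne's conjecture: descent from the fields with the groups `ℤ/p` and `(ℤ/p)²`
-/

set_option autoImplicit false
set_option linter.unusedSectionVars false

namespace Pool.Agent.Helper78K9.DT

open Matrix Polynomial Filter Topology NumberField Pool.Agent.R389 Pool.Agent.H541R3.ART
  Pool.Agent.Helper8K9.DC Pool.Agent.Helper8K9.DG Pool.Agent.Helper78K9.DS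

variable {QA : Type} [Field QA] [CharZero QA] [IsAlgClosed QA] [Algebra.IsAlgebraic ℚ QA]
  {KK : Type} [Field KK] [IsAlgClosed KK]

/-- the fields -/
theorem exists_field (F₀ : IntermediateField ℚ QA) [FiniteDimensional ℚ F₀] {S : Finset ℕ}
    {p : ℕ} (hp : p.Prime) (hp2 : p ≠ 2) {π : (QA ≃ₐ[ℚ] QA) →* CC p}
    (hsurj : Function.Surjective π) (hπ : IsFinite ⊤ π)
    (hdis : ∀ g : CC p, ∃ γ ∈ F₀.fixingSubgroup, π γ = g) (hπD : ∀ γ ∈ SP.decomp QA S, π γ = 1)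
    (V : Subgroup (CC p)) (hV : V.index = p ∨ V.index = p ^ 2) :
    ∃ (K : IntermediateField ℚ QA) (_ : FiniteDimensional ℚ K), IsSmall p K ∧ K ⊓ F₀ = ⊥ ∧
      (∀ l ∈ S, SplitsCompletely l K) ∧ K.fixingSubgroup = V.comap π := by
  have : NeZero p := ⟨hp.ne_zero⟩
  have hodd : Odd (Nat.card (CC p)) := by
    rw [SP.card_CC]
    exact (hp.odd_of_ne_two hp2).pow
  obtain ⟨K₀, hK₀, -, hK₀V⟩ := cor ⊤ _ π hπ V
  obtain ⟨h1, h2, h3⟩ := atr (CC p) π hodd hsurj V K₀ hK₀V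
  have hgal : IsGalois ℚ K₀ := h1.toIsGalois
  refine ⟨K₀, hK₀, ⟨h1, h2, by rwa [h3], SP.pow_eq_one hK₀V⟩, inf_eq_bot hK₀V hdis, ?_, hK₀V⟩
  intro l hl Q hQ hlQ γ hγ
  rw [hK₀V, Subgroup.mem_comap, hπD γ ⟨l, hl, Q, hQ, hlQ, hγ⟩]
  exact V.one_mem

section nice

variable {E : Type} [Field E] {d : ℕ} {M : Motive QA KK E d} {ι : QA →+* ℂ} {c : (QA ≃ₐ[ℚ] QA)} {m : ℤ}
  {E' : Type} [Field E'] [NumberField E'] [Algebra E E']

theorem nice_mul {f : (QA ≃ₐ[ℚ] QA) → E'} (h : Nice M ι c m f) {a : ℕ} (ha : a ≠ 0) :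
    Nice M ι c m (fun γ => a * f γ) := by
  have h1 := Nice.list (fun (_ : Unit) => f) (List.replicate a ()) (by simpa using ha)
    (fun _ _ => h)
  have h2 : (fun γ => ((List.replicate a ()).map fun _ => f γ).sum) =
      fun γ => (a : E') * f γ := by
    funext γ
    rw [List.map_replicate, List.sum_replicate, nsmul_eq_mul]
  rwa [h2] at h1

variable {n : Type} [Fintype n] [DecidableEq n] {ρ : (QA ≃ₐ[ℚ] QA) →* Matrix n n E'}

theorem of_relation [NumberField E] (hρ : IsFinite ⊤ ρ) {f₁ f₂ : (QA ≃ₐ[ℚ] QA) → E'}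
    (h₁ : Nice M ι c m f₁) (h₂ : Nice M ι c m f₂) (h : ∀ γ, (ρ γ).trace + f₂ γ = f₁ γ) :
    DeligneConjecture M ι c m ρ ∧ ∀ L, IsLFunction M ι ρ L → ∀ τ, ∃ a : ℂ, a ≠ 0 ∧
      Tendsto (L τ) (𝓝[≠] (m : ℂ)) (𝓝 a) := by
  classical
  have halg : Algebra.IsAlgebraic E E' := by
    have h1 : Algebra.IsAlgebraic ℚ E' := inferInstance
    have h2 : IsScalarTower ℚ E E' := inferInstance
    exact Algebra.IsAlgebraic.tower_top (K := ℚ) E
  obtain ⟨nA, _, _, ρA, aA, ΩA, eA, a1, a2, a3, a4, a5, a6⟩ := h₁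
  obtain ⟨nB, _, _, ρB, aB, ΩB, eB, b1, b2, b3, b4, b5, b6⟩ := h₂
  have htr : ∀ γ, (dsum ρ ρB γ).trace = (ρA γ).trace := by
    intro γ
    have h1 : (dsum ρ ρB γ).trace = (ρ γ).trace + (ρB γ).trace := by
      change (fromBlocks (ρ γ) 0 0 (ρB γ)).trace = _
      simp only [Matrix.trace, diag_apply, Fintype.sum_sum_type, fromBlocks_apply₁₁,
        fromBlocks_apply₂₂]
    rw [h1, a2, b2, h]
  obtain ⟨X, Y, hXY, hYX, hX⟩ := iso E' ⊤ (n ⊕ nB) nA (dsum ρ ρB) ρA (isFinite_dsum hρ b1) a1 htr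
  have hcard : Fintype.card nA = Fintype.card n + Fintype.card nB := by
    have h1 := htr 1
    rw [map_one, map_one, Matrix.trace_one, Matrix.trace_one, Fintype.card_sum] at h1
    exact_mod_cast h1.symm
  have hlim := ldiv lsum liso luni E d M ι m E' n nA nB ρ ρA ρB X Y hXY hYX hX aA aB a3 b3
  refine ⟨?_, ?_⟩
  · intro L Ω hL hΩ
    have h1 := psum E d M ι c E' n nB ρ ρB _ Ω ΩB hΩ b4
    have h2 := piso E d M ι c E' (n ⊕ nB) nA (dsum ρ ρB) ρA X Y hXY hYX hX _ ΩA a4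
    obtain ⟨e', he', h3⟩ := puni E d M ι c E' (n ⊕ nB) (dsum ρ ρB) _ _ _ h1 h2
    refine ⟨eA / eB / e', fun τ => ?_⟩
    have h4 := hlim L hL τ
    convert h4 using 2
    rw [a6, b6, hcard, Nat.cast_add, mul_add, mul_add, zpow_add₀ two_pi_I]
    have h5 := h3 τ
    have n1 : ι (τ e') ≠ 0 := by
      rw [Ne, map_eq_zero, map_eq_zero]
      exact he'
    have n2 : ι (τ eB) ≠ 0 := by
      rw [Ne, map_eq_zero, map_eq_zero]
      exact b5
    have n3 : ΩB τ ≠ 0 := pne E d M ι c E' nB ρB _ ΩB b4 τ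
    have n4 : (2 * Real.pi * Complex.I : ℂ) ^ (m * (d * Fintype.card nB)) ≠ 0 :=
      zpow_ne_zero _ two_pi_I
    have h6 : ΩA τ = Ω τ * ΩB τ / ι (τ e') := by
      rw [eq_div_iff n1, h5, mul_comm]
    rw [map_div₀, map_div₀, map_div₀, map_div₀, h6]
    field_simp
  · intro L hL τ
    obtain ⟨LA, -, hA1⟩ := a3
    obtain ⟨LB, -, hB1⟩ := b3
    exact ⟨_, div_ne_zero (hA1 τ).1 (hB1 τ).1, hlim L hL τ⟩

/-- **(2)** -/
theorem small_descent [NumberField E] (hc : ∀ x, ι (c x) = starRingEnd ℂ (ι x)) (hρ : IsFinite ⊤ ρ)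
    (N : ℕ) (S : Finset ℕ) (hS : ∀ l ∈ S, l.Prime)
    (F₀ : IntermediateField ℚ QA) [FiniteDimensional ℚ F₀]
    (h : ∀ (p : ℕ) (K : IntermediateField ℚ QA) [FiniteDimensional ℚ K], p.Prime → N ≤ p →
      IsSmall p K → K ⊓ F₀ = ⊥ → (∀ l ∈ S, SplitsCompletely l K) → Known M ι c m ρ K) :
    DeligneConjecture M ι c m ρ ∧ ∀ L, IsLFunction M ι ρ L → ∀ τ, ∃ a : ℂ, a ≠ 0 ∧
      Tendsto (L τ) (𝓝[≠] (m : ℂ)) (𝓝 a) := by
  classical
  have hcc : c * c = 1 := by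
    refine AlgEquiv.ext fun x => ?_
    apply ι.injective
    rw [AlgEquiv.mul_apply, hc, hc, AlgEquiv.one_apply]
    exact Complex.conj_conj _
  obtain ⟨p, q, a, b, hp, hq, hp2, hq2, hNp, hNq, ha, hb, hab⟩ := SP.exists_primes N
  have key : ∀ r : ℕ, r.Prime → r ≠ 2 → N ≤ r → ∃ T U : (QA ≃ₐ[ℚ] QA) → E',
      Nice M ι c m T ∧ Nice M ι c m U ∧ ∀ γ, (r : E') * (ρ γ).trace + U γ = T γ := by
    intro r hr hr2 hNr
    have : NeZero r := ⟨hr.ne_zero⟩
    obtain ⟨π, hsurj, hπ, hdis, hπD⟩ := SP.exists_disjoint (SP.cycd (QA := QA) S hS) r hr.pos F₀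
    have hnice : ∀ V : Subgroup (CC r), (V.index = r ∨ V.index = r ^ 2) →
        Nice M ι c m (fun γ => (ρ γ).trace * ind V (fun _ => (1 : E')) (π γ)) := by
      intro V hV
      obtain ⟨K, h1, h2, h3, h4, h5⟩ := exists_field F₀ (S := S) hr hr2 hsurj hπ hdis hπD V hV
      exact known_nice hcc hsurj hπ hρ K h5 (h r K hr hNr h2 h3 h4)
    refine ⟨fun γ => ((SP.lines (CC r) r).toList.map fun V =>
        (ρ γ).trace * ind V (fun _ => (1 : E')) (π γ)).sum,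
      fun γ => (ρ γ).trace * ind (⊥ : Subgroup (CC r)) (fun _ => (1 : E')) (π γ),
      ?_, ?_, fun γ => ?_⟩
    · refine Nice.list (fun V γ => (ρ γ).trace *
        ind V (fun _ => (1 : E')) (π γ)) _ (SP.lines_ne_nil hr (fun g => SP.pow_eq_one_CC g)
          SP.card_CC) fun V hV => hnice V (Or.inl ?_)
      have h1 := SP.mem_lines.1 (Finset.mem_toList.1 hV)
      have h2 := V.card_mul_index
      rw [h1, SP.card_CC, sq] at h2
      exact Nat.eq_of_mul_eq_mul_left hr.pos h2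
    · exact hnice ⊥ (Or.inr (by rw [Subgroup.index_bot, SP.card_CC]))
    · beta_reduce
      have h1 := SP.rel hr (fun g => SP.pow_eq_one_CC g) SP.card_CC (π γ)
      have h2 : ((r : ℕ) : E') + ind (⊥ : Subgroup (CC r)) (fun _ => (1 : E')) (π γ) =
          ((SP.lines (CC r) r).toList.map fun V => ind V (fun _ => (1 : E')) (π γ)).sum := by
        have h3 := congrArg (fun x : ℚ => (x : E')) h1
        simp only [Rat.cast_add, Rat.cast_natCast] at h3
        rw [ind_cast, h3]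
        generalize (SP.lines (CC r) r).toList = l
        induction l with
        | nil => simp
        | cons V l ih =>
          rw [List.map_cons, List.sum_cons, List.map_cons, List.sum_cons, Rat.cast_add, ih,
            ind_cast (k := E') V]
      rw [List.sum_map_mul_left, ← h2]
      ring
  obtain ⟨T, U, hT, hU, h1⟩ := key p hp hp2 hNp
  obtain ⟨T', U', hT', hU', h2⟩ := key q hq hq2 hNq
  refine of_relation hρ ((nice_mul hT ha).add (nice_mul hU' hb))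
    ((nice_mul hU ha).add (nice_mul hT' hb)) fun γ => ?_
  rw [← h1 γ, ← h2 γ]
  have h3 : (a : E') * p = b * q + 1 := by exact_mod_cast congrArg (fun x : ℕ => (x : E')) hab
  linear_combination (-(ρ γ).trace) * h3

end nice

end Pool.Agent.Helper78K9.DT
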